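import Pool.Agent.H17.Ps9

set_option autoImplicit false

namespace Pool.Agent.Results.MP_725b87_an.BothQuestions

open Pool.Agent.H17.Ps MeasureTheory

/-- Both questions.  First part: for every bounded pseudoconvex domain `Ω ⊂ ℂⁿ` and every
plurisubharmonic `φ` on `Ω` that is not identically `-∞`, the exceptional set `E(φ)` is null for
Lebesgue measure (for every additive Haar measure of `ℂⁿ`).  Second part: in every dimension
`n + 1 ≥ 1` there are such `Ω` and `φ` for which `E(φ)` is not pluripolar. -/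
theorem result :
    (∀ (n : ℕ) (Ω : Set (Cn n)) (φ : Cn n → EReal), IsBoundedPseudoconvexDomain Ω →
      IsPSH Ω φ → (∃ z ∈ Ω, φ z ≠ ⊥) →
        ∀ (μ : Measure (Cn n)) [μ.IsAddHaarMeasure], μ (Exc Ω φ) = 0) ∧
    (∀ n : ℕ, ∃ (Ω : Set (Cn (n + 1))) (φ : Cn (n + 1) → EReal),
      IsBoundedPseudoconvexDomain Ω ∧ IsPSH Ω φ ∧ (∃ z ∈ Ω, φ z ≠ ⊥) ∧
        ¬ IsPluripolar Ω (Exc Ω φ)) :=
  ⟨fun _ _ _ hΩ hφ hne μ _ => Q1 hΩ.2.1 hΩ.2.2.1.isPreconnected hφ hne μ, fun n => Q2 n⟩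

end Pool.Agent.Results.MP_725b87_an.BothQuestions
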