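import Pool.Agent.H17.Ps5

set_option autoImplicit false

namespace Pool.Agent.Results.MP_725b87_an.ExcNotPluripolar

open Pool.Agent.H17.Ps

/-- In every dimension `n + 1 ≥ 1` there are a bounded pseudoconvex domain `Ω` and a plurisubharmonic
function `φ` on it, not identically `-∞`, whose exceptional set `E(φ)` is not pluripolar. -/
theorem result (n : ℕ) : ∃ (Ω : Set (Cn (n + 1))) (φ : Cn (n + 1) → EReal),
    IsBoundedPseudoconvexDomain Ω ∧ IsPSH Ω φ ∧ (∃ z ∈ Ω, φ z ≠ ⊥) ∧
      ¬ IsPluripolar Ω (Exc Ω φ) :=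
  Q2 n

end Pool.Agent.Results.MP_725b87_an.ExcNotPluripolar
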